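import Mathlib

/-!
# Percolation with constant freezing on the complete graph on four vertices violates FKG

For every rate `0 < α ≤ 1/250` the law of the final configuration of percolation with constant
freezing (PCF) on `K₄` does not satisfy the FKG inequality.

Idea. For small `α`, if the four edges of a four-cycle stay closed, the most likely reason is that
one of the two diagonals opens and its two endpoints freeze together: this has probability of order
`α`. Similarly for the event that both diagonals stay closed. But all six edges stay closed only if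
three vertices freeze before any edge opens, and this has probability of order `α ^ 3`.
-/

set_option autoImplicit false

namespace Pool.Agent.Results.MP_b6680e_pr.KFour

open Finset

/-- A state of PCF on a graph with vertex set `V`: the set of open edges and the set of frozen
vertices. All other edges are closed and all other vertices are warm. -/
structure State (V : Type) where
  /-- the open edges -/
  openE : Finset (Sym2 V)
  /-- the frozen vertices -/
  frozen : Finset V

variable {V : Type} [Fintype V] [DecidableEq V]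

open Classical in
/-- The cluster of `v` when `O` is the set of open edges: the vertices joined to `v` by a path of
open edges (regardless of which vertices are frozen). -/
noncomputable def cluster (O : Finset (Sym2 V)) (v : V) : Finset V :=
  univ.filter fun w => (SimpleGraph.fromEdgeSet (O : Set (Sym2 V))).Reachable v w

open Classical in
/-- The edges that can open: the closed edges of `G` with both endpoints warm. Each of them opens
at rate `1`. -/
noncomputable def canOpen (G : SimpleGraph V) (s : State V) : Finset (Sym2 V) :=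
  univ.filter fun e => e ∈ G.edgeSet ∧ e ∉ s.openE ∧ ∀ v ∈ e, v ∉ s.frozen

/-- The clusters of the warm vertices. Each of them freezes at rate `α`. -/
noncomputable def warmClusters (s : State V) : Finset (Finset V) :=
  (univ.filter fun v => v ∉ s.frozen).image (cluster s.openE)

/-- The expectation of `f (open edges)` after `n` jumps of the PCF chain on `G` at rate `α`, started
from the state `s`. From a state with at least one warm vertex, the chain jumps by opening an edge
`e` that can open (with probability `1 / R`) or by freezing a warm cluster `C` (with probability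
`α / R`), where `R = #(edges that can open) + α #(warm clusters)` is the total rate. A state without
warm vertices is absorbing. -/
noncomputable def expect (G : SimpleGraph V) (α : ℝ) :
    ℕ → State V → (Finset (Sym2 V) → ℝ) → ℝ
  | 0, s, f => f s.openE
  | n + 1, s, f =>
    if warmClusters s = ∅ then f s.openE
    else (∑ e ∈ canOpen G s, expect G α n ⟨insert e s.openE, s.frozen⟩ f +
        α * ∑ C ∈ warmClusters s, expect G α n ⟨s.openE, s.frozen ∪ C⟩ f) /
      ((canOpen G s).card + α * (warmClusters s).card)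

/-- The probability that the set of open edges is in `A` after `n` jumps of the chain from `s`. -/
noncomputable def prob (G : SimpleGraph V) (α : ℝ) (n : ℕ) (s : State V)
    (A : Set (Finset (Sym2 V))) : ℝ :=
  expect G α n s (A.indicator 1)

open Classical in
/-- The number `|V| + |E|`: after that many jumps the chain started from any state is absorbed. -/
noncomputable def steps (G : SimpleGraph V) : ℕ :=
  Fintype.card V + (univ.filter fun e => e ∈ G.edgeSet).card

/-- The law `μ_{G,α}` of the final set of open edges of PCF on `G` at rate `α`, started with all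
vertices warm and all edges closed. -/
noncomputable def μ (G : SimpleGraph V) (α : ℝ) (A : Set (Finset (Sym2 V))) : ℝ :=
  prob G α (steps G) ⟨∅, ∅⟩ A

/-- An event is increasing if it is closed under opening more edges. -/
def Increasing (A : Set (Finset (Sym2 V))) : Prop :=
  ∀ ω ω' : Finset (Sym2 V), ω ∈ A → ω ⊆ ω' → ω' ∈ A

/-! ### General facts -/

theorem warm_empty_iff (s : State V) : warmClusters s = ∅ ↔ ∀ v, v ∈ s.frozen := by
  unfold warmClusters
  rw [image_eq_empty, filter_eq_empty_iff]
  simp

theorem mem_cluster_self (O : Finset (Sym2 V)) (v : V) : v ∈ cluster O v := by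
  unfold cluster
  simp

theorem mem_canOpen (G : SimpleGraph V) (s : State V) (e : Sym2 V) :
    e ∈ canOpen G s ↔ e ∈ G.edgeSet ∧ e ∉ s.openE ∧ ∀ v ∈ e, v ∉ s.frozen := by
  unfold canOpen
  simp only [mem_filter, mem_univ, true_and]

theorem denom_pos (G : SimpleGraph V) {α : ℝ} (hα : 0 < α) (s : State V)
    (h : warmClusters s ≠ ∅) :
    0 < ((canOpen G s).card : ℝ) + α * (warmClusters s).card := by
  have h1 : 0 < (warmClusters s).card := card_pos.2 (nonempty_iff_ne_empty.2 h)
  have h2 : (0 : ℝ) < (warmClusters s).card := by exact_mod_cast h1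
  have h3 : (0 : ℝ) ≤ (canOpen G s).card := Nat.cast_nonneg _
  positivity

theorem expect_succ (G : SimpleGraph V) (α : ℝ) (n : ℕ) (s : State V)
    (h : warmClusters s ≠ ∅) (f : Finset (Sym2 V) → ℝ) :
    expect G α (n + 1) s f = (∑ e ∈ canOpen G s, expect G α n ⟨insert e s.openE, s.frozen⟩ f +
        α * ∑ C ∈ warmClusters s, expect G α n ⟨s.openE, s.frozen ∪ C⟩ f) /
      ((canOpen G s).card + α * (warmClusters s).card) := by
  rw [expect, if_neg h]

open Classical in
/-- The number of jumps that may still happen. -/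
noncomputable def rest (G : SimpleGraph V) (s : State V) : ℕ :=
  (univ.filter fun v => v ∉ s.frozen).card +
    (univ.filter fun e => e ∈ G.edgeSet ∧ e ∉ s.openE).card

theorem rest_open (G : SimpleGraph V) (s : State V) (e : Sym2 V) (he : e ∈ canOpen G s) :
    rest G ⟨insert e s.openE, s.frozen⟩ < rest G s := by
  unfold rest
  simp only
  rw [mem_canOpen] at he
  apply Nat.add_lt_add_left
  apply card_lt_card
  rw [ssubset_iff_of_subset]
  · exact ⟨e, by simp [he.1, he.2.1], by simp⟩
  · intro x hx
    simp only [mem_filter, mem_univ, true_and, mem_insert, not_or] at hx ⊢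
    exact ⟨hx.1, hx.2.2⟩

theorem rest_freeze (G : SimpleGraph V) (s : State V) (C : Finset V) (hC : C ∈ warmClusters s) :
    rest G ⟨s.openE, s.frozen ∪ C⟩ < rest G s := by
  unfold rest
  simp only
  unfold warmClusters at hC
  rw [mem_image] at hC
  obtain ⟨v, hv, rfl⟩ := hC
  rw [mem_filter] at hv
  apply Nat.add_lt_add_right
  apply card_lt_card
  rw [ssubset_iff_of_subset]
  · exact ⟨v, by simp [hv.2], by simp [mem_cluster_self]⟩
  · intro x hx
    simp only [mem_filter, mem_univ, true_and, mem_union, not_or] at hx ⊢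
    exact hx.1

/-- After `rest G s` jumps the chain started from `s` is absorbed: its law no longer changes. -/
theorem expect_stable (G : SimpleGraph V) (α : ℝ) (n : ℕ) :
    ∀ (s : State V), rest G s ≤ n → ∀ f, expect G α (n + 1) s f = expect G α n s f := by
  induction n with
  | zero =>
    intro s hs f
    have h : warmClusters s = ∅ := by
      rw [warm_empty_iff]
      by_contra hc
      push Not at hc
      obtain ⟨v, hv⟩ := hc
      have : 0 < (univ.filter fun v => v ∉ s.frozen).card := card_pos.2 ⟨v, by simp [hv]⟩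
      unfold rest at hs
      omega
    show expect G α (0 + 1) s f = f s.openE
    simp only [expect, h, if_true]
  | succ n ih =>
    intro s hs f
    by_cases h : warmClusters s = ∅
    · rw [expect, if_pos h, expect, if_pos h]
    · rw [expect_succ G α (n + 1) s h, expect_succ G α n s h]
      congr 1
      congr 1
      · apply sum_congr rfl
        intro e he
        exact ih _ (by have := rest_open G s e he; omega) f
      · congr 1
        apply sum_congr rfl
        intro C hC
        exact ih _ (by have := rest_freeze G s C hC; omega) f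

/-- The law after `n` jumps is the same for all `n ≥ |V| + |E|`. -/
theorem prob_final (G : SimpleGraph V) (α : ℝ) (n : ℕ) (hn : steps G ≤ n)
    (A : Set (Finset (Sym2 V))) : prob G α n ⟨∅, ∅⟩ A = μ G α A := by
  unfold μ prob
  induction n, hn using Nat.le_induction with
  | base => rfl
  | succ n hn ih =>
    rw [expect_stable G α n ⟨∅, ∅⟩ _ _, ih]
    unfold rest
    unfold steps at hn
    refine le_trans (Nat.add_le_add (card_filter_le _ _) ?_) hn
    apply card_le_card
    intro e he
    simp only [mem_filter, mem_univ, true_and] at he ⊢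
    exact he.1

theorem expect_mono (G : SimpleGraph V) {α : ℝ} (hα : 0 < α) (n : ℕ) :
    ∀ (s : State V) (f g : Finset (Sym2 V) → ℝ), (∀ ω, f ω ≤ g ω) →
      expect G α n s f ≤ expect G α n s g := by
  induction n with
  | zero => intro s f g h; exact h _
  | succ n ih =>
    intro s f g hfg
    by_cases h : warmClusters s = ∅
    · rw [expect, expect, if_pos h, if_pos h]; exact hfg _
    · rw [expect_succ G α n s h, expect_succ G α n s h]
      have := denom_pos G hα s h
      gcongr
      · exact ih _ _ _ hfg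
      · exact ih _ _ _ hfg

theorem expect_add (G : SimpleGraph V) (α : ℝ) (n : ℕ) :
    ∀ (s : State V) (f g : Finset (Sym2 V) → ℝ),
      expect G α n s (fun ω => f ω + g ω) = expect G α n s f + expect G α n s g := by
  induction n with
  | zero => intro s f g; rfl
  | succ n ih =>
    intro s f g
    by_cases h : warmClusters s = ∅
    · rw [expect, expect, expect, if_pos h, if_pos h, if_pos h]
    · rw [expect_succ G α n s h, expect_succ G α n s h, expect_succ G α n s h]
      simp only [ih, sum_add_distrib]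
      ring

theorem expect_const (G : SimpleGraph V) {α : ℝ} (hα : 0 < α) (n : ℕ) (c : ℝ) :
    ∀ (s : State V), expect G α n s (fun _ => c) = c := by
  induction n with
  | zero => intro s; rfl
  | succ n ih =>
    intro s
    by_cases h : warmClusters s = ∅
    · rw [expect, if_pos h]
    · rw [expect_succ G α n s h]
      have := denom_pos G hα s h
      simp only [ih, sum_const, nsmul_eq_mul]
      rw [div_eq_iff this.ne']
      ring

/-! ### Inclusion and exclusion -/

theorem prob_nonneg (G : SimpleGraph V) {α : ℝ} (hα : 0 < α) (n : ℕ) (s : State V)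
    (A : Set (Finset (Sym2 V))) : 0 ≤ prob G α n s A := by
  have h := expect_mono G hα n s (fun _ => 0) (A.indicator 1) (fun ω => by
    by_cases hω : ω ∈ A <;> simp [hω])
  rwa [expect_const G hα] at h

theorem prob_mono (G : SimpleGraph V) {α : ℝ} (hα : 0 < α) (n : ℕ) (s : State V)
    {A B : Set (Finset (Sym2 V))} (h : A ⊆ B) : prob G α n s A ≤ prob G α n s B := by
  apply expect_mono G hα
  intro ω
  exact Set.indicator_le_indicator_of_subset h (fun _ => zero_le_one) ω

theorem prob_compl (G : SimpleGraph V) {α : ℝ} (hα : 0 < α) (n : ℕ) (s : State V)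
    (A : Set (Finset (Sym2 V))) : prob G α n s Aᶜ = 1 - prob G α n s A := by
  have h := expect_add G α n s (A.indicator 1) (Aᶜ.indicator 1)
  have h2 : (fun ω => A.indicator (1 : Finset (Sym2 V) → ℝ) ω + Aᶜ.indicator 1 ω)
      = fun _ => 1 := by
    funext ω
    by_cases hω : ω ∈ A <;> simp [hω]
  rw [h2, expect_const G hα] at h
  unfold prob
  linarith

theorem prob_union (G : SimpleGraph V) (α : ℝ) (n : ℕ) (s : State V)
    (A B : Set (Finset (Sym2 V))) :
    prob G α n s (A ∪ B) + prob G α n s (A ∩ B) = prob G α n s A + prob G α n s B := by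
  unfold prob
  rw [← expect_add, ← expect_add]
  congr 1
  funext ω
  by_cases h1 : ω ∈ A <;> by_cases h2 : ω ∈ B <;> simp [h1, h2]

/-- If the complements of `A` and `B` are negatively correlated, then so are `A` and `B`. -/
theorem neg_corr (G : SimpleGraph V) {α : ℝ} (hα : 0 < α) (n : ℕ) (s : State V)
    (D E : Set (Finset (Sym2 V)))
    (h : prob G α n s (D ∩ E) < prob G α n s D * prob G α n s E) :
    prob G α n s (Dᶜ ∩ Eᶜ) < prob G α n s Dᶜ * prob G α n s Eᶜ := by
  have h1 : Dᶜ ∩ Eᶜ = (D ∪ E)ᶜ := by rw [Set.compl_union]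
  have h2 := prob_union G α n s D E
  rw [h1, prob_compl G hα, prob_compl G hα, prob_compl G hα]
  nlinarith

/-! ### Confinement -/

/-- If all open edges, and all edges of `G` with two warm endpoints, belong to `S`, then the final
open edges belong to `S`. -/
theorem prob_confined (G : SimpleGraph V) {α : ℝ} (hα : 0 < α) (S : Finset (Sym2 V)) (n : ℕ) :
    ∀ (s : State V), s.openE ⊆ S → (∀ e ∈ G.edgeSet, (∀ v ∈ e, v ∉ s.frozen) → e ∈ S) →
      prob G α n s {ω | ω ⊆ S} = 1 := by
  unfold prob
  induction n with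
  | zero =>
    intro s h1 _
    rw [expect, Set.indicator_of_mem (by exact h1)]
    rfl
  | succ n ih =>
    intro s h1 h2
    by_cases h : warmClusters s = ∅
    · rw [expect, if_pos h, Set.indicator_of_mem (by exact h1)]
      rfl
    · rw [expect_succ G α n s h]
      have := denom_pos G hα s h
      rw [div_eq_iff this.ne']
      have e1 : ∀ e ∈ canOpen G s, expect G α n ⟨insert e s.openE, s.frozen⟩
          (({ω | ω ⊆ S} : Set (Finset (Sym2 V))).indicator 1) = 1 := by
        intro e he
        rw [mem_canOpen] at he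
        apply ih
        · exact insert_subset (h2 e he.1 he.2.2) h1
        · exact h2
      have e2 : ∀ C ∈ warmClusters s, expect G α n ⟨s.openE, s.frozen ∪ C⟩
          (({ω | ω ⊆ S} : Set (Finset (Sym2 V))).indicator 1) = 1 := by
        intro C _
        apply ih
        · exact h1
        · intro e he hv
          apply h2 e he
          intro v hve hvf
          exact hv v hve (mem_union_left _ hvf)
      rw [sum_congr rfl e1, sum_congr rfl e2]
      simp

/-- Open edges stay open. -/
theorem prob_escaped (G : SimpleGraph V) {α : ℝ} (S : Finset (Sym2 V))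
    (e₀ : Sym2 V) (he₀ : e₀ ∈ S) (n : ℕ) :
    ∀ (s : State V), e₀ ∈ s.openE → prob G α n s {ω | ∀ e ∈ S, e ∉ ω} = 0 := by
  unfold prob
  induction n with
  | zero =>
    intro s h1
    rw [expect, Set.indicator_of_notMem]
    intro h
    exact h e₀ he₀ h1
  | succ n ih =>
    intro s h1
    by_cases h : warmClusters s = ∅
    · rw [expect, if_pos h, Set.indicator_of_notMem]
      intro h
      exact h e₀ he₀ h1
    · rw [expect_succ G α n s h]
      have e1 : ∀ e ∈ canOpen G s, expect G α n ⟨insert e s.openE, s.frozen⟩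
          (({ω | ∀ e ∈ S, e ∉ ω} : Set (Finset (Sym2 V))).indicator 1) = 0 :=
        fun e _ => ih _ (mem_insert_of_mem h1)
      have e2 : ∀ C ∈ warmClusters s, expect G α n ⟨s.openE, s.frozen ∪ C⟩
          (({ω | ∀ e ∈ S, e ∉ ω} : Set (Finset (Sym2 V))).indicator 1) = 0 :=
        fun C _ => ih _ h1
      rw [sum_congr rfl e1, sum_congr rfl e2]
      simp

/-! ### The complete graph on four vertices -/

/-- The complete graph on four vertices. -/
abbrev K4 : SimpleGraph (Fin 4) := ⊤

theorem canOpen_card (s : State (Fin 4)) : (canOpen K4 s).card ≤ 6 := by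
  have h : canOpen K4 s ⊆ (univ : Finset (Fin 4)).offDiag.image (Function.uncurry Sym2.mk) := by
    intro e he
    rw [mem_canOpen] at he
    induction e with
    | h x y =>
      rw [mem_image]
      exact ⟨(x, y), by simpa using he.1, rfl⟩
  refine (card_le_card h).trans ?_
  rw [Sym2.card_image_offDiag]
  decide

theorem warmClusters_card (s : State (Fin 4)) : (warmClusters s).card ≤ 4 := by
  unfold warmClusters
  refine card_image_le.trans ?_
  exact (card_filter_le _ _).trans (by simp)

theorem denom_le {α : ℝ} (hα : 0 < α) (s : State (Fin 4)) :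
    ((canOpen K4 s).card : ℝ) + α * (warmClusters s).card ≤ 6 + 4 * α := by
  have h1 : ((canOpen K4 s).card : ℝ) ≤ 6 := by exact_mod_cast canOpen_card s
  have h2 : ((warmClusters s).card : ℝ) ≤ 4 := by exact_mod_cast warmClusters_card s
  nlinarith

/-- Lower bound for the probability of an event, through a first step that opens an edge of `T`. -/
theorem prob_ge_open {α : ℝ} (hα : 0 < α) (n : ℕ) (s : State (Fin 4))
    (h : warmClusters s ≠ ∅) (T : Finset (Sym2 (Fin 4))) (hT : T ⊆ canOpen K4 s)
    (A : Set (Finset (Sym2 (Fin 4)))) (c : ℝ)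
    (hc : ∀ e ∈ T, c ≤ prob K4 α n ⟨insert e s.openE, s.frozen⟩ A) (hc0 : 0 ≤ c) :
    T.card * c / (6 + 4 * α) ≤ prob K4 α (n + 1) s A := by
  unfold prob
  rw [expect_succ K4 α n s h]
  have h1 := denom_pos K4 hα s h
  have h2 : (T.card : ℝ) * c ≤ ∑ e ∈ canOpen K4 s,
      expect K4 α n ⟨insert e s.openE, s.frozen⟩ (A.indicator 1) := by
    calc (T.card : ℝ) * c = ∑ e ∈ T, c := by simp
      _ ≤ ∑ e ∈ T, expect K4 α n ⟨insert e s.openE, s.frozen⟩ (A.indicator 1) :=
        sum_le_sum hc
      _ ≤ _ := sum_le_sum_of_subset_of_nonneg hT fun e _ _ => prob_nonneg K4 hα n _ A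
  have h3 : 0 ≤ ∑ C ∈ warmClusters s, expect K4 α n ⟨s.openE, s.frozen ∪ C⟩ (A.indicator 1) :=
    sum_nonneg fun C _ => prob_nonneg K4 hα n _ A
  have h4 : (T.card : ℝ) * c ≤ ∑ e ∈ canOpen K4 s,
      expect K4 α n ⟨insert e s.openE, s.frozen⟩ (A.indicator 1) +
      α * ∑ C ∈ warmClusters s, expect K4 α n ⟨s.openE, s.frozen ∪ C⟩ (A.indicator 1) := by
    have := mul_nonneg hα.le h3
    linarith
  exact div_le_div₀ (by have := mul_nonneg (Nat.cast_nonneg (α := ℝ) T.card) hc0; linarith)
    h4 h1 (denom_le hα s)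

/-- Lower bound for the probability of an event, through a first step that freezes a cluster. -/
theorem prob_ge_freeze {α : ℝ} (hα : 0 < α) (n : ℕ) (s : State (Fin 4))
    (C : Finset (Fin 4)) (hC : C ∈ warmClusters s)
    (A : Set (Finset (Sym2 (Fin 4)))) (c : ℝ)
    (hc : c ≤ prob K4 α n ⟨s.openE, s.frozen ∪ C⟩ A) (hc0 : 0 ≤ c) :
    α * c / (6 + 4 * α) ≤ prob K4 α (n + 1) s A := by
  unfold prob
  have h : warmClusters s ≠ ∅ := by
    rintro h
    rw [h] at hC
    simp at hC
  rw [expect_succ K4 α n s h]
  have h1 := denom_pos K4 hα s h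
  have h2 : 0 ≤ ∑ e ∈ canOpen K4 s,
      expect K4 α n ⟨insert e s.openE, s.frozen⟩ (A.indicator 1) :=
    sum_nonneg fun e _ => prob_nonneg K4 hα n _ A
  have h3 : c ≤ ∑ C ∈ warmClusters s, expect K4 α n ⟨s.openE, s.frozen ∪ C⟩ (A.indicator 1) :=
    hc.trans (single_le_sum
      (f := fun C => expect K4 α n ⟨s.openE, s.frozen ∪ C⟩ (A.indicator 1))
      (fun C _ => prob_nonneg K4 hα n _ A) hC)
  have h4 : α * c ≤ ∑ e ∈ canOpen K4 s,
      expect K4 α n ⟨insert e s.openE, s.frozen⟩ (A.indicator 1) +
      α * ∑ C ∈ warmClusters s, expect K4 α n ⟨s.openE, s.frozen ∪ C⟩ (A.indicator 1) := by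
    have := mul_le_mul_of_nonneg_left h3 hα.le
    linarith
  exact div_le_div₀ (by have := mul_nonneg hα.le hc0; linarith) h4 h1 (denom_le hα s)

theorem warm_ne_empty {s : State (Fin 4)} (v : Fin 4) (hv : v ∉ s.frozen) :
    warmClusters s ≠ ∅ := by
  intro h
  rw [warm_empty_iff] at h
  exact hv (h v)

/-- Open `s(a,b)`, then freeze `{a, b}`: afterwards only `s(c,d)` can open. -/
theorem prob_pair {α : ℝ} (hα : 0 < α) (n : ℕ) (a b : Fin 4) (hab : a ≠ b)
    (S : Finset (Sym2 (Fin 4))) (h1 : s(a, b) ∈ S)
    (h2 : ∀ x y : Fin 4, x ≠ y → x ≠ a → x ≠ b → y ≠ a → y ≠ b → s(x, y) ∈ S) :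
    α / (6 + 4 * α) ≤ prob K4 α (n + 1) ⟨insert s(a, b) ∅, ∅⟩ {ω | ω ⊆ S} := by
  have hC : cluster {s(a, b)} a ∈
      warmClusters (⟨insert s(a, b) ∅, ∅⟩ : State (Fin 4)) := by
    unfold warmClusters
    rw [mem_image]
    exact ⟨a, by simp, by simp⟩
  have hb : b ∈ cluster {s(a, b)} a := by
    unfold cluster
    rw [mem_filter]
    refine ⟨mem_univ _, ?_⟩
    apply SimpleGraph.Adj.reachable
    rw [SimpleGraph.fromEdgeSet_adj]
    exact ⟨by simp, hab⟩
  have key := prob_ge_freeze hα n _ _ hC {ω | ω ⊆ S} 1 (by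
    rw [prob_confined K4 hα S n]
    · simpa using h1
    · intro e he hv
      induction e with
      | h x y =>
        have hx := hv x (by simp)
        have hy := hv y (by simp)
        simp only [empty_union] at hx hy
        apply h2 x y
        · simpa using he
        · rintro rfl; exact hx (mem_cluster_self _ _)
        · rintro rfl; exact hx hb
        · rintro rfl; exact hy (mem_cluster_self _ _)
        · rintro rfl; exact hy hb) zero_le_one
  simpa using key

/-- The two diagonals. -/
def diag : Finset (Sym2 (Fin 4)) := {s(0, 3), s(1, 2)}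

/-- The four-cycle. -/
def cyc : Finset (Sym2 (Fin 4)) := {s(0, 1), s(0, 2), s(1, 3), s(2, 3)}

theorem sub_canOpen (T : Finset (Sym2 (Fin 4))) (hT : ∀ e ∈ T, ¬ e.IsDiag) :
    T ⊆ canOpen K4 ⟨∅, ∅⟩ := by
  intro e he
  rw [mem_canOpen]
  refine ⟨?_, by simp, by simp⟩
  have := hT e he
  simpa using this

theorem prob_cyc_closed {α : ℝ} (hα : 0 < α) (n : ℕ) :
    2 * α / (6 + 4 * α) ^ 2 ≤ prob K4 α (n + 2) ⟨∅, ∅⟩ {ω | ∀ e ∈ cyc, e ∉ ω} := by
  have h := prob_ge_open hα (n + 1) ⟨∅, ∅⟩ (warm_ne_empty 0 (by simp)) diag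
    (sub_canOpen _ (by decide)) {ω | ∀ e ∈ cyc, e ∉ ω} (α / (6 + 4 * α)) (by
      have hsub : ({ω | ω ⊆ diag} : Set (Finset (Sym2 (Fin 4)))) ⊆ {ω | ∀ e ∈ cyc, e ∉ ω} := by
        intro ω hω e he heω
        have h1 : e ∈ diag := hω heω
        have h2 : Disjoint diag cyc := by decide
        exact (disjoint_left.1 h2) h1 he
      intro e he
      refine le_trans ?_ (prob_mono K4 hα _ _ hsub)
      simp only [diag, mem_insert, mem_singleton] at he
      rcases he with rfl | rfl
      · exact prob_pair hα n 0 3 (by decide) diag (by decide) (by decide)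
      · exact prob_pair hα n 1 2 (by decide) diag (by decide) (by decide)) (by positivity)
  have hcard : (diag.card : ℝ) = 2 := by
    have : diag.card = 2 := by decide
    rw [this]; norm_num
  rw [hcard] at h
  refine le_trans (le_of_eq ?_) h
  have : (6 + 4 * α) ≠ 0 := by positivity
  field_simp

theorem prob_diag_closed {α : ℝ} (hα : 0 < α) (n : ℕ) :
    4 * α / (6 + 4 * α) ^ 2 ≤ prob K4 α (n + 2) ⟨∅, ∅⟩ {ω | ∀ e ∈ diag, e ∉ ω} := by
  have hsub : ∀ S : Finset (Sym2 (Fin 4)), Disjoint S diag →
      ({ω | ω ⊆ S} : Set (Finset (Sym2 (Fin 4)))) ⊆ {ω | ∀ e ∈ diag, e ∉ ω} := by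
    intro S hS ω hω e he heω
    exact (disjoint_left.1 hS) (hω heω) he
  have h := prob_ge_open hα (n + 1) ⟨∅, ∅⟩ (warm_ne_empty 0 (by simp)) cyc
    (sub_canOpen _ (by decide)) {ω | ∀ e ∈ diag, e ∉ ω} (α / (6 + 4 * α)) (by
      intro e he
      simp only [cyc, mem_insert, mem_singleton] at he
      rcases he with rfl | rfl | rfl | rfl
      · exact (prob_pair hα n 0 1 (by decide) {s(0, 1), s(2, 3)} (by decide) (by decide)).trans
          (prob_mono K4 hα _ _ (hsub _ (by decide)))
      · exact (prob_pair hα n 0 2 (by decide) {s(0, 2), s(1, 3)} (by decide) (by decide)).trans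
          (prob_mono K4 hα _ _ (hsub _ (by decide)))
      · exact (prob_pair hα n 1 3 (by decide) {s(0, 2), s(1, 3)} (by decide) (by decide)).trans
          (prob_mono K4 hα _ _ (hsub _ (by decide)))
      · exact (prob_pair hα n 2 3 (by decide) {s(0, 1), s(2, 3)} (by decide) (by decide)).trans
          (prob_mono K4 hα _ _ (hsub _ (by decide)))) (by positivity)
  have hcard : (cyc.card : ℝ) = 4 := by
    have : cyc.card = 4 := by decide
    rw [this]; norm_num
  rw [hcard] at h
  refine le_trans (le_of_eq ?_) h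
  have : (6 + 4 * α) ≠ 0 := by positivity
  field_simp

/-! ### All edges closed -/

theorem cluster_empty (v : Fin 4) : cluster (∅ : Finset (Sym2 (Fin 4))) v = {v} := by
  unfold cluster
  ext w
  simp only [coe_empty, SimpleGraph.fromEdgeSet_empty, mem_filter, mem_univ, true_and,
    mem_singleton, SimpleGraph.reachable_bot]
  exact eq_comm

theorem canOpen_empty_card (F : Finset (Fin 4)) :
    (canOpen K4 ⟨∅, F⟩).card = (Fᶜ.card).choose 2 := by
  rw [← Sym2.card_image_offDiag]
  congr 1
  ext e
  rw [mem_canOpen]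
  induction e with
  | h x y =>
    simp only [mem_image, mem_offDiag, mem_compl]
    constructor
    · rintro ⟨h1, _, h3⟩
      exact ⟨(x, y), ⟨h3 x (by simp), h3 y (by simp), by simpa using h1⟩, rfl⟩
    · rintro ⟨⟨x', y'⟩, ⟨h1, h2, h3⟩, h4⟩
      simp only at h1 h2 h3
      rw [← h4]
      simp only [Function.uncurry_apply_pair]
      refine ⟨by simpa using h3, by simp, ?_⟩
      intro v hv
      rw [Sym2.mem_iff] at hv
      rcases hv with rfl | rfl
      · exact h1
      · exact h2

theorem warmClusters_empty (F : Finset (Fin 4)) :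
    warmClusters (⟨∅, F⟩ : State (Fin 4)) = Fᶜ.image fun v => {v} := by
  unfold warmClusters
  have : (univ.filter fun v => v ∉ F) = Fᶜ := by ext; simp
  simp only [this]
  apply image_congr
  intro v _
  exact cluster_empty v

theorem warmClusters_empty_card (F : Finset (Fin 4)) :
    (warmClusters (⟨∅, F⟩ : State (Fin 4))).card = Fᶜ.card := by
  rw [warmClusters_empty, card_image_of_injective _ singleton_injective]

theorem mem_cyc_union_diag (e : Sym2 (Fin 4)) (he : e ∈ K4.edgeSet) : e ∈ cyc ∪ diag := by
  induction e with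
  | h x y =>
    have hne : x ≠ y := by simpa using he
    clear he
    revert x y
    decide

/-- One step of the recursion for the event that all edges stay closed. -/
theorem all_closed_step {α : ℝ} (hα : 0 < α) (n : ℕ) (F : Finset (Fin 4)) (w : ℕ)
    (hw : Fᶜ.card = w + 1) (c : ℝ)
    (hc : ∀ F' : Finset (Fin 4), F'ᶜ.card = w →
      prob K4 α n ⟨∅, F'⟩ {ω | ∀ e ∈ cyc ∪ diag, e ∉ ω} ≤ c) :
    prob K4 α (n + 1) ⟨∅, F⟩ {ω | ∀ e ∈ cyc ∪ diag, e ∉ ω} ≤
      α * ((w + 1 : ℕ) * c) / (((w + 1).choose 2 : ℕ) + α * (w + 1 : ℕ)) := by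
  have h : warmClusters (⟨∅, F⟩ : State (Fin 4)) ≠ ∅ := by
    intro h
    have := warmClusters_empty_card F
    rw [h] at this
    simp at this
    omega
  have e0 := canOpen_empty_card F
  have e1 := warmClusters_empty_card F
  unfold prob
  rw [expect_succ K4 α n _ h, e0, e1, hw]
  have h1 : ∑ e ∈ canOpen K4 ⟨∅, F⟩, expect K4 α n
      ⟨insert e (⟨∅, F⟩ : State (Fin 4)).openE, (⟨∅, F⟩ : State (Fin 4)).frozen⟩
      (({ω | ∀ e ∈ cyc ∪ diag, e ∉ ω} : Set (Finset (Sym2 (Fin 4)))).indicator 1) = 0 := by
    apply sum_eq_zero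
    intro e he
    rw [mem_canOpen] at he
    exact prob_escaped K4 (cyc ∪ diag) e (mem_cyc_union_diag e he.1) n _ (mem_insert_self _ _)
  have h2 : ∑ C ∈ warmClusters (⟨∅, F⟩ : State (Fin 4)), expect K4 α n
      ⟨(⟨∅, F⟩ : State (Fin 4)).openE, (⟨∅, F⟩ : State (Fin 4)).frozen ∪ C⟩
      (({ω | ∀ e ∈ cyc ∪ diag, e ∉ ω} : Set (Finset (Sym2 (Fin 4)))).indicator 1)
      ≤ (w + 1 : ℕ) * c := by
    have h3 : ∀ C ∈ warmClusters (⟨∅, F⟩ : State (Fin 4)), expect K4 α n
      ⟨(⟨∅, F⟩ : State (Fin 4)).openE, (⟨∅, F⟩ : State (Fin 4)).frozen ∪ C⟩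
      (({ω | ∀ e ∈ cyc ∪ diag, e ∉ ω} : Set (Finset (Sym2 (Fin 4)))).indicator 1) ≤ c := by
      intro C hC
      rw [warmClusters_empty, mem_image] at hC
      obtain ⟨v, hv, rfl⟩ := hC
      apply hc
      simp only
      have h4 : (F ∪ {v})ᶜ = Fᶜ.erase v := by
        ext x
        simp only [mem_compl, mem_union, mem_singleton, mem_erase, not_or]
        tauto
      rw [h4, card_erase_of_mem hv, hw]
      rfl
    refine (sum_le_card_nsmul _ _ _ h3).trans ?_
    rw [e1, hw, nsmul_eq_mul]
  rw [h1, zero_add]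
  gcongr

/-- The probability that all edges stay closed is at most `(4 / 3) α ^ 3`. -/
theorem all_closed_le {α : ℝ} (hα : 0 < α) (n : ℕ) :
    prob K4 α (n + 3) ⟨∅, ∅⟩ {ω | ∀ e ∈ cyc ∪ diag, e ∉ ω} ≤ 4 / 3 * α ^ 3 := by
  have a1 : ∀ F : Finset (Fin 4), Fᶜ.card = 1 →
      prob K4 α n ⟨∅, F⟩ {ω | ∀ e ∈ cyc ∪ diag, e ∉ ω} ≤ 1 := by
    intro F _
    have h := prob_mono K4 hα n ⟨∅, F⟩ (Set.subset_univ {ω | ∀ e ∈ cyc ∪ diag, e ∉ ω})
    refine h.trans ?_
    unfold prob
    rw [Set.indicator_univ]
    exact (expect_const K4 hα n 1 _).le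
  have a2 : ∀ F : Finset (Fin 4), Fᶜ.card = 2 →
      prob K4 α (n + 1) ⟨∅, F⟩ {ω | ∀ e ∈ cyc ∪ diag, e ∉ ω} ≤ 2 * α := by
    intro F hF
    refine (all_closed_step hα n F 1 hF 1 a1).trans ?_
    rw [div_le_iff₀ (by positivity)]
    have : ((1 + 1).choose 2 : ℕ) = 1 := rfl
    rw [this]
    push_cast
    nlinarith [mul_pos hα hα]
  have a3 : ∀ F : Finset (Fin 4), Fᶜ.card = 3 →
      prob K4 α (n + 2) ⟨∅, F⟩ {ω | ∀ e ∈ cyc ∪ diag, e ∉ ω} ≤ 2 * α ^ 2 := by
    intro F hF
    refine (all_closed_step hα (n + 1) F 2 hF (2 * α) a2).trans ?_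
    rw [div_le_iff₀ (by positivity)]
    have : ((2 + 1).choose 2 : ℕ) = 3 := rfl
    rw [this]
    push_cast
    nlinarith [pow_pos hα 3]
  refine (all_closed_step hα (n + 2) ∅ 3 (by decide) (2 * α ^ 2) a3).trans ?_
  rw [div_le_iff₀ (by positivity)]
  have : ((3 + 1).choose 2 : ℕ) = 6 := rfl
  rw [this]
  push_cast
  nlinarith [pow_pos hα 4]

/-- **The FKG inequality fails for PCF.** On the complete graph on four vertices there are
increasing events `A` and `B` (namely: some edge of a fixed four-cycle is open; some diagonal of it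
is open) such that for every rate `0 < α ≤ 1 / 250` the law of the final configuration of
percolation with constant freezing satisfies `μ(A ∩ B) < μ(A) μ(B)`. -/
theorem result : ∃ A B : Set (Finset (Sym2 (Fin 4))), Increasing A ∧ Increasing B ∧
    ∀ α : ℝ, 0 < α → α ≤ 1 / 250 → μ K4 α (A ∩ B) < μ K4 α A * μ K4 α B := by
  refine ⟨{ω | ∀ e ∈ cyc, e ∉ ω}ᶜ, {ω | ∀ e ∈ diag, e ∉ ω}ᶜ, ?_, ?_, ?_⟩
  · intro ω ω' h hs h'
    exact h fun e he heω => h' e he (hs heω)
  · intro ω ω' h hs h'
    exact h fun e he heω => h' e he (hs heω)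
  · intro α hα hα2
    have hn : steps K4 ≤ steps K4 + 3 := by omega
    rw [← prob_final K4 α _ hn, ← prob_final K4 α _ hn, ← prob_final K4 α _ hn]
    apply neg_corr K4 hα
    have h1 := prob_cyc_closed hα (steps K4 + 1)
    have h2 := prob_diag_closed hα (steps K4 + 1)
    have h3 := all_closed_le hα (steps K4)
    have e1 : ({ω | ∀ e ∈ cyc, e ∉ ω} ∩ {ω | ∀ e ∈ diag, e ∉ ω} : Set (Finset (Sym2 (Fin 4))))
        = {ω | ∀ e ∈ cyc ∪ diag, e ∉ ω} := by
      ext ω
      simp only [Set.mem_inter_iff, Set.mem_ofPred_eq, mem_union]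
      constructor
      · rintro ⟨h1, h2⟩ e (he | he)
        · exact h1 e he
        · exact h2 e he
      · intro h
        exact ⟨fun e he => h e (Or.inl he), fun e he => h e (Or.inr he)⟩
    rw [e1]
    refine lt_of_le_of_lt h3 (lt_of_lt_of_le ?_ (mul_le_mul h1 h2 (by positivity)
      (prob_nonneg K4 hα _ _ _)))
    rw [div_mul_div_comm, lt_div_iff₀ (by positivity)]
    have h4 : 6 + 4 * α ≤ 6.016 := by linarith
    have h5 : (6 + 4 * α) ^ 2 * (6 + 4 * α) ^ 2 ≤ 6.016 ^ 2 * 6.016 ^ 2 := by gcongr
    calc 4 / 3 * α ^ 3 * ((6 + 4 * α) ^ 2 * (6 + 4 * α) ^ 2)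
        ≤ 4 / 3 * α ^ 3 * (6.016 ^ 2 * 6.016 ^ 2) := by gcongr
      _ = α ^ 2 * (4 / 3 * (6.016 ^ 2 * 6.016 ^ 2) * α) := by ring
      _ < α ^ 2 * 8 := by
        apply mul_lt_mul_of_pos_left _ (by positivity)
        norm_num
        linarith
      _ = 2 * α * (4 * α) := by ring

end Pool.Agent.Results.MP_b6680e_pr.KFour
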